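import Pool.Agent.Helper41.LB.NDefs
import Pool.Agent.Helper53.LB.F
import Pool.Agent.Helper69.LB.FN

/-!
# The explicit fields are admissible
-/

set_option autoImplicit false

open MeasureTheory Set Real Module

namespace Pool.Agent.Helper19.LB

section N1

variable {k : ℕ} {m : ℝ}

private lemma m_pos (hm : 20 ≤ m) : 0 < m := by linarith

private lemma k_ge (hkm : (k : ℝ) = m ^ 4) (hm : 20 ≤ m) : 160000 ≤ k := by
  have h : (160000 : ℝ) ≤ (k : ℝ) := by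
    rw [hkm]
    calc (160000 : ℝ) = 20 ^ 4 := by norm_num
      _ ≤ m ^ 4 := by gcongr
  exact_mod_cast h

private lemma k_one (hkm : (k : ℝ) = m ^ 4) (hm : 20 ≤ m) : 1 ≤ k :=
  le_trans (by norm_num) (k_ge hkm hm)

private lemma cast_sub (hkm : (k : ℝ) = m ^ 4) (hm : 20 ≤ m) : ((k - 1 : ℕ) : ℝ) = (k : ℝ) - 1 := by
  rw [Nat.cast_sub (k_one hkm hm), Nat.cast_one]

lemma rb_ge (m : ℝ) : 1 ≤ rb m := by
  unfold rb
  have : 0 ≤ 2 / m ^ 2 := by positivity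
  linarith

lemma rb_le (hm : 20 ≤ m) : rb m ≤ 201 / 200 := by
  unfold rb
  have h : 2 / m ^ 2 ≤ 2 / 20 ^ 2 := by gcongr
  have h' : (2 : ℝ) / 20 ^ 2 = 1 / 200 := by norm_num
  linarith

lemma eta_pos (k : ℕ) : 0 < eta k := by unfold eta; positivity

lemma eta_le_one (k : ℕ) : eta k ≤ 1 := by
  unfold eta
  exact pow_le_one₀ (by norm_num) (by norm_num)

lemma mul_eta_le (hkm : (k : ℝ) = m ^ 4) (hm : 20 ≤ m) : ((k : ℝ) - 1) * eta k ≤ 1 := by
  rw [← cast_sub hkm hm]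
  unfold eta
  have h : ((k - 1 : ℕ) : ℝ) ≤ 2 ^ (k - 1) := by
    have := (Nat.lt_two_pow_self (n := k - 1)).le
    exact_mod_cast this
  rw [one_div, inv_pow, ← div_eq_mul_inv, div_le_one (by positivity)]
  exact h

lemma vv_hasDeriv (hkm : (k : ℝ) = m ^ 4) (hm : 20 ≤ m) {ρ : ℝ} (hρ : 0 < ρ) :
    HasDerivAt (fun ρ => vv k m ρ) (-(k - 1) * vv k m ρ / ρ) ρ := by
  unfold vv
  have h1 : HasDerivAt (fun ρ : ℝ => rb m / ρ) (-(rb m) / ρ ^ 2) ρ := by
    have := (hasDerivAt_inv hρ.ne').const_mul (rb m)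
    refine (this.congr_deriv ?_).congr_of_eventuallyEq ?_
    · field_simp
    · filter_upwards with x
      rw [div_eq_mul_inv]
  have h2 := h1.pow (k - 1)
  refine h2.congr_deriv ?_
  rw [cast_sub hkm hm]
  have hk2 : k - 1 = (k - 1 - 1) + 1 := by
    have := k_ge hkm hm
    omega
  have h3 : (rb m / ρ) ^ (k - 1) = (rb m / ρ) ^ (k - 1 - 1) * (rb m / ρ) := by
    conv_lhs => rw [hk2]
    rw [pow_succ]
  rw [h3]
  field_simp

lemma vv_cont {s : Set ℝ} (hs : ∀ x ∈ s, (0 : ℝ) < x) : ContinuousOn (fun ρ => vv k m ρ) s := by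
  unfold vv
  refine ContinuousOn.pow ?_ _
  refine ContinuousOn.div continuousOn_const continuousOn_id fun x hx => (hs x hx).ne'

theorem fld1 (hkm : (k : ℝ) = m ^ 4) (hm : 20 ≤ m) : IsFld k 1 (rb m) (Zf k m 1) := by
  have _ := k_one hkm hm
  refine (isFld_flat k 1 (rb m) _).add (isFld_prod ?_ ?_ ?_ ?_ ?_ ?_ ?_ ?_)
  · fun_prop
  · fun_prop
  · fun_prop
  · fun_prop
  · fun_prop
  · intro ρ _
    have := ((hasDerivAt_id ρ).sub_const 1).const_mul ((1 - eta k) * (m ^ 2 / 2))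
    simpa using this
  · intro ρ _
    exact hasDerivAt_const _ _
  · intro ρ _
    have := (((hasDerivAt_id ρ).sub_const 1).const_mul (5 * m ^ 6)).const_add (m ^ 4)
    simpa using this

theorem fld2 (hkm : (k : ℝ) = m ^ 4) (hm : 20 ≤ m) : IsFld k (rb m) (2 * rb m) (Zf k m 2) := by
  have h0 := m_pos hm
  have hr := rb_ge m
  have hpos : ∀ x ∈ Icc (rb m) (2 * rb m), (0 : ℝ) < x := fun x hx => by
    have := hx.1
    linarith
  have hpos' : ∀ x ∈ Ioo (rb m) (2 * rb m), (0 : ℝ) < x := fun x hx =>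
    hpos x (Ioo_subset_Icc_self hx)
  have cv : ContinuousOn (fun ρ => vv k m ρ) (Icc (rb m) (2 * rb m)) := vv_cont hpos
  have cid : ContinuousOn (fun ρ : ℝ => ρ) (Icc (rb m) (2 * rb m)) := continuousOn_id
  refine (isFld_flat k _ _ _).add ((isFld_prod ?_ ?_ ?_ ?_ ?_ ?_ ?_ ?_).add
    (Pool.Agent.Helper69.LB.isFld_fan (by positivity) (by positivity) (by positivity)))
  · exact cv.sub continuousOn_const
  · exact (continuousOn_const.mul cv).div cid fun x hx => (hpos x hx).ne'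
  · exact (continuousOn_const.mul cv).div (cid.pow 2) fun x hx => (pow_pos (hpos x hx) 2).ne'
  · exact continuousOn_const.mul (continuousOn_const.sub cv)
  · exact continuousOn_const.mul ((continuousOn_const.mul cv).div cid
      fun x hx => (hpos x hx).ne')
  · intro ρ hρ
    exact (vv_hasDeriv hkm hm (hpos' ρ hρ)).sub_const _
  · intro ρ hρ
    have hp := hpos' ρ hρ
    have := ((vv_hasDeriv hkm hm hp).const_mul (-((k : ℝ) - 1))).div (hasDerivAt_id ρ) hp.ne'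
    refine this.congr_deriv ?_
    simp only [id]
    field_simp
    ring
  · intro ρ hρ
    have hp := hpos' ρ hρ
    have := ((vv_hasDeriv hkm hm hp).const_sub 2).const_mul (2 * m ^ 3)
    refine this.congr_deriv ?_
    ring

theorem fld3 (hkm : (k : ℝ) = m ^ 4) (hm : 20 ≤ m) :
    IsFld k (2 * rb m) (3 * rb m) (Zf k m 3) := by
  have _ := k_one hkm hm
  refine (isFld_flat k _ _ _).add ((isFld_prod ?_ ?_ ?_ ?_ ?_ ?_ ?_ ?_).add
    ((isFld_prod ?_ ?_ ?_ ?_ ?_ ?_ ?_ ?_).add (isFld_prod ?_ ?_ ?_ ?_ ?_ ?_ ?_ ?_)))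
  · fun_prop
  · fun_prop
  · fun_prop
  · fun_prop
  · fun_prop
  · intro ρ _
    have := ((hasDerivAt_id ρ).const_sub (3 * rb m)).const_mul (52 / m)
    simpa using this
  · intro ρ _
    exact hasDerivAt_const _ _
  · intro ρ _
    have := (((hasDerivAt_id ρ).sub_const (2 * rb m)).const_mul (110 * m ^ 3)).const_add
      (20 * m ^ 3)
    simpa using this
  all_goals first
    | fun_prop
    | (intro ρ _; exact hasDerivAt_const _ _)

theorem adm1 (hkm : (k : ℝ) = m ^ 4) (hm : 20 ≤ m) {ρ : ℝ} (hρ : ρ ∈ Ioo 1 (rb m)) (h : ℝ) :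
    Adm k 0 (Zf k m 1) ρ h := by
  have h0 := m_pos hm
  have hρ1 := hρ.1
  have hρ0 : 0 < ρ := by linarith
  have he0 := eta_pos k
  have he1 := eta_le_one k
  have hrb := rb_le hm
  have ht : 0 < ρ - 1 := by linarith
  have ht2 : (ρ - 1) * m ^ 2 < 2 := by
    have : ρ - 1 < 2 / m ^ 2 := by
      have := hρ.2
      unfold rb at this
      linarith
    rwa [lt_div_iff₀ (by positivity)] at this
  have hρ2 : ρ ≤ 2 := by
    have := hρ.2
    linarith
  set F : ℝ := (1 - eta k) * (m ^ 2 / 2) * (ρ - 1) with hF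
  have hF0 : 0 ≤ F := by
    have : 0 ≤ 1 - eta k := by linarith
    positivity
  have hF' : F ≤ (ρ - 1) * m ^ 2 / 2 := by
    rw [hF]
    nlinarith [mul_pos ht (pow_pos h0 2)]
  have hF1 : F ≤ 1 := by linarith
  set g : ℝ := m ^ 4 + 5 * m ^ 6 * (ρ - 1) with hg
  have hg4 : m ^ 4 ≤ g := by
    rw [hg]
    have : 0 ≤ 5 * m ^ 6 * (ρ - 1) := by positivity
    linarith
  have hg0 : 0 < g := lt_of_lt_of_le (by positivity) hg4
  have hsum : (-(2 * m ^ 3)) + (2 * m ^ 3 + 0) = (0 : ℝ) := by ring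
  rw [← hsum]
  refine Adm.add hρ0 (adm_flat k _ ρ h) (adm_prod h (D := 0) (by positivity) hρ0 (by positivity)
    le_rfl hF0 hg0 ?_ ?_ le_rfl ?_ ?_)
  · -- mass
    show ρ * (F ^ 2 * m ^ 6 / g) ≤ 2 * m ^ 3
    rw [mul_div_assoc', div_le_iff₀ hg0]
    have h1 : F ^ 2 ≤ (ρ - 1) * m ^ 2 / 2 := by nlinarith
    have h2 : ρ * (F ^ 2 * m ^ 6) ≤ 2 * ((ρ - 1) * m ^ 2 / 2 * m ^ 6) := by gcongr
    have h3 : 2 * ((ρ - 1) * m ^ 2 / 2 * m ^ 6) ≤ 2 * m ^ 3 * (5 * m ^ 6 * (ρ - 1)) := by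
      have : 0 ≤ (ρ - 1) * m ^ 8 := by positivity
      nlinarith
    have h4 : 2 * m ^ 3 * (5 * m ^ 6 * (ρ - 1)) ≤ 2 * m ^ 3 * g := by
      have : 5 * m ^ 6 * (ρ - 1) ≤ g := by
        rw [hg]
        have : 0 ≤ m ^ 4 := by positivity
        linarith
      gcongr
    linarith
  · show -(0 : ℝ) ≤ ((k : ℝ) - 1) * F + ρ * ((1 - eta k) * (m ^ 2 / 2))
    have hk1 : (0 : ℝ) ≤ (k : ℝ) - 1 := by
      rw [← cast_sub hkm hm]
      positivity
    have h2 : 0 ≤ 1 - eta k := by linarith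
    have h3 : 0 ≤ ((k : ℝ) - 1) * F := mul_nonneg hk1 hF0
    have h4 : 0 ≤ ρ * ((1 - eta k) * (m ^ 2 / 2)) := by positivity
    linarith
  · show -(0 : ℝ) ≤ (k : ℝ) * ((1 - eta k) * (m ^ 2 / 2)) / ρ + 0
    have h2 : 0 ≤ 1 - eta k := by linarith
    have h4 : 0 ≤ (k : ℝ) * ((1 - eta k) * (m ^ 2 / 2)) / ρ := by positivity
    linarith
  · show 3 * m ^ 6 * F + 0 + 2 * (k : ℝ) * m ^ 6 * F ^ 2 / (ρ * g) ≤ 5 * m ^ 6
    have h1 : 2 * (k : ℝ) * m ^ 6 * F ^ 2 / (ρ * g) ≤ 2 * m ^ 6 := by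
      rw [div_le_iff₀ (by positivity), hkm]
      have h2 : F ^ 2 ≤ 1 := by nlinarith
      have h3 : m ^ 4 ≤ ρ * g := by nlinarith
      calc 2 * m ^ 4 * m ^ 6 * F ^ 2 ≤ 2 * m ^ 4 * m ^ 6 * 1 := by gcongr
        _ = 2 * m ^ 6 * m ^ 4 := by ring
        _ ≤ 2 * m ^ 6 * (ρ * g) := by gcongr
    have h2 : 3 * m ^ 6 * F ≤ 3 * m ^ 6 * 1 := by gcongr
    linarith

theorem adm2 (hkm : (k : ℝ) = m ^ 4) (hm : 20 ≤ m) {ρ : ℝ} (hρ : ρ ∈ Ioo (rb m) (2 * rb m))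
    (h : ℝ) : Adm k 0 (Zf k m 2) ρ h := by
  have h0 := m_pos hm
  have hr1 := rb_ge m
  have hrb := rb_le hm
  have hρ1 := hρ.1
  have hρ2 := hρ.2
  have hρ0 : 0 < ρ := by linarith
  have he0 := eta_pos k
  have hk1 : (0 : ℝ) ≤ (k : ℝ) - 1 := by
    rw [← cast_sub hkm hm]
    positivity
  set v : ℝ := vv k m ρ with hv
  have hq1 : rb m / ρ ≤ 1 := by
    rw [div_le_one hρ0]
    exact hρ1.le
  have hq0 : 0 < rb m / ρ := by
    have : 0 < rb m := by linarith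
    positivity
  have hv1 : v ≤ 1 := pow_le_one₀ hq0.le hq1
  have hv0 : 0 < v := pow_pos hq0 _
  have hve : eta k ≤ v := by
    rw [hv]
    unfold eta vv
    have : (1 : ℝ) / 2 ≤ rb m / ρ := by
      rw [div_le_div_iff₀ (by norm_num) hρ0]
      linarith
    gcongr
  -- `ρ v ≤ rb`
  have hρv : ρ * v ≤ rb m := by
    have hk2 : k - 1 = (k - 1 - 1) + 1 := by
      have := k_ge hkm hm
      omega
    have h3 : v = (rb m / ρ) ^ (k - 1 - 1) * (rb m / ρ) := by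
      rw [hv]
      unfold vv
      conv_lhs => rw [hk2]
      rw [pow_succ]
    rw [h3]
    have h4 : (rb m / ρ) ^ (k - 1 - 1) ≤ 1 := pow_le_one₀ hq0.le hq1
    calc ρ * ((rb m / ρ) ^ (k - 1 - 1) * (rb m / ρ))
        = (rb m / ρ) ^ (k - 1 - 1) * rb m := by field_simp
      _ ≤ 1 * rb m := by gcongr
      _ = rb m := one_mul _
  have hf0 : 0 ≤ v - eta k := by linarith
  have hg0 : 0 < 2 * m ^ 3 * (2 - v) := by
    have : 0 < 2 - v := by linarith
    positivity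
  have hm3 : (8000 : ℝ) ≤ m ^ 3 := by
    calc (8000 : ℝ) = 20 ^ 3 := by norm_num
      _ ≤ m ^ 3 := by gcongr
  have hW : Adm k (m ^ 3 + 1) (W2 k m) ρ h := by
    refine adm_prod h (D := 0) (by positivity) hρ0 (by positivity) zero_le_one hf0 hg0
      ?_ ?_ le_rfl ?_ ?_
    · show ρ * ((v - eta k) ^ 2 * m ^ 6 / (2 * m ^ 3 * (2 - v))) ≤ m ^ 3
      rw [mul_div_assoc', div_le_iff₀ hg0]
      have h1 : ρ * (v - eta k) ^ 2 ≤ rb m := by
        have h2 : (v - eta k) ^ 2 ≤ v * 1 := by nlinarith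
        calc ρ * (v - eta k) ^ 2 ≤ ρ * (v * 1) := by gcongr
          _ ≤ rb m := by linarith
      have h3 : ρ * (v - eta k) ^ 2 * m ^ 6 ≤ 2 * m ^ 6 := by
        gcongr
        linarith
      have h4 : 2 * m ^ 6 ≤ m ^ 3 * (2 * m ^ 3 * (2 - v)) := by
        have : 0 ≤ m ^ 6 * (1 - v) := by
          have : 0 ≤ 1 - v := by linarith
          positivity
        nlinarith
      calc ρ * ((v - eta k) ^ 2 * m ^ 6) = ρ * (v - eta k) ^ 2 * m ^ 6 := by ring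
        _ ≤ _ := h3.trans h4
    · show -(1 : ℝ) ≤ ((k : ℝ) - 1) * (v - eta k) + ρ * (-((k : ℝ) - 1) * v / ρ)
      have h1 : ρ * (-((k : ℝ) - 1) * v / ρ) = -((k : ℝ) - 1) * v := by field_simp
      rw [h1]
      have := mul_eta_le hkm hm
      linarith
    · show -(0 : ℝ) ≤ (k : ℝ) * (-((k : ℝ) - 1) * v / ρ) / ρ + (k : ℝ) * ((k : ℝ) - 1) * v / ρ ^ 2
      have h1 : (k : ℝ) * (-((k : ℝ) - 1) * v / ρ) / ρ + (k : ℝ) * ((k : ℝ) - 1) * v / ρ ^ 2 = 0 := by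
        field_simp
        ring
      rw [h1, neg_zero]
    · show 3 * m ^ 6 * (v - eta k) + 0 + 2 * (k : ℝ) * m ^ 6 * (v - eta k) ^ 2 /
        (ρ * (2 * m ^ 3 * (2 - v))) ≤ 2 * m ^ 3 * (((k : ℝ) - 1) * v / ρ)
      have h1 : 2 * (k : ℝ) * m ^ 6 * (v - eta k) ^ 2 / (ρ * (2 * m ^ 3 * (2 - v))) ≤
          m ^ 7 * v / ρ := by
        rw [div_le_div_iff₀ (by positivity) hρ0, hkm]
        have h2 : (v - eta k) ^ 2 ≤ v * (2 - v) := by nlinarith
        calc 2 * m ^ 4 * m ^ 6 * (v - eta k) ^ 2 * ρ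
            ≤ 2 * m ^ 4 * m ^ 6 * (v * (2 - v)) * ρ := by gcongr
          _ = m ^ 7 * v * (ρ * (2 * m ^ 3 * (2 - v))) := by ring
      have h3 : 3 * m ^ 6 * (v - eta k) ≤ 3 * m ^ 6 * v := by
        gcongr
        linarith
      have h4 : 3 * m ^ 6 * v + m ^ 7 * v / ρ ≤ 2 * m ^ 3 * (((k : ℝ) - 1) * v / ρ) := by
        rw [hkm]
        have h5 : 3 * m ^ 6 * v + m ^ 7 * v / ρ = (3 * m ^ 6 * ρ + m ^ 7) * v / ρ := by
          field_simp
        have h6 : 2 * m ^ 3 * ((m ^ 4 - 1) * v / ρ) = (2 * m ^ 7 - 2 * m ^ 3) * v / ρ := by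
          ring
        rw [h5, h6]
        gcongr
        have h7 : 3 * m ^ 6 * ρ ≤ 3 * m ^ 6 * 3 := by
          gcongr
          linarith
        have h8 : 2 * m ^ 3 ≤ 2 * m ^ 6 := by
          have : m ^ 3 ≤ m ^ 6 := pow_le_pow_right₀ (by linarith) (by norm_num)
          linarith
        have h9 : 20 * m ^ 6 ≤ m ^ 7 := by
          calc 20 * m ^ 6 ≤ m * m ^ 6 := by gcongr
            _ = m ^ 7 := by ring
        have h10 : 0 < m ^ 6 := by positivity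
        linarith
      linarith
  have hFa : Adm k 0 (Fa k m) ρ h := by
    refine Pool.Agent.Helper69.LB.adm_fan (k_one hkm hm) h (by positivity) (by positivity) (by positivity)
      (by positivity) (by linarith) hρ1.le ?_
    have h1 : Fld.fy1 (rb m) (52 / m) (26 * m) ρ = 4 * (ρ - rb m) / m ^ 2 := by
      unfold Fld.fy1
      field_simp
      ring
    rw [h1]
    have h2 : 2 * (16 / m) * (2 / m ^ 3) = 64 / m ^ 4 := by
      field_simp
      ring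
    rw [h2]
    have h3 : 3 * (4 * (ρ - rb m) / m ^ 2) ^ 2 = 48 * (ρ - rb m) ^ 2 / m ^ 4 := by
      field_simp
      ring
    rw [h3]
    have h4 : (ρ - rb m) ^ 2 ≤ 64 / 48 := by nlinarith
    gcongr
    linarith
  have hsum : (-(2 * m ^ 3)) + ((2 * m ^ 3) + 0) = (0 : ℝ) := by ring
  rw [← hsum]
  exact Adm.add hρ0 (adm_flat k _ ρ h) (Adm.add hρ0 (hW.mono (by linarith)) hFa)

theorem adm3 (hkm : (k : ℝ) = m ^ 4) (hm : 20 ≤ m) {ρ : ℝ} (hρ : ρ ∈ Ioo (2 * rb m) (3 * rb m))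
    (h : ℝ) : Adm k 0 (Zf k m 3) ρ h := by
  have h0 := m_pos hm
  have hr1 := rb_ge m
  have hrb := rb_le hm
  have hρ1 := hρ.1
  have hρ2 := hρ.2
  have hρ0 : 0 < ρ := by linarith
  have he1 := eta_le_one k
  have hk1 : (0 : ℝ) ≤ (k : ℝ) - 1 := by
    rw [← cast_sub hkm hm]
    positivity
  have hm3 : (8000 : ℝ) ≤ m ^ 3 := by
    calc (8000 : ℝ) = 20 ^ 3 := by norm_num
      _ ≤ m ^ 3 := by gcongr
  have hy0 : 0 < yc m := by
    unfold yc
    positivity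
  have hy : 2 / m ^ 2 ≤ yc m := by
    unfold yc
    have h1 : 0 ≤ 2 / m ^ 3 := by positivity
    have h2 : 2 / m ^ 2 ≤ 2 * rb m ^ 2 / m ^ 2 := by
      gcongr
      nlinarith
    linarith
  have hl : 1 / yc m ^ 2 ≤ m ^ 4 / 4 := by
    rw [div_le_div_iff₀ (by positivity) (by norm_num)]
    have h1 : (2 / m ^ 2) ^ 2 ≤ yc m ^ 2 := by gcongr
    have h2 : m ^ 4 * (2 / m ^ 2) ^ 2 = 4 := by
      field_simp
      ring
    calc (1 : ℝ) * 4 = m ^ 4 * (2 / m ^ 2) ^ 2 := by rw [h2, one_mul]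
      _ ≤ m ^ 4 * yc m ^ 2 := by gcongr
  have hl0 : 0 ≤ 1 / yc m ^ 2 := by positivity
  set F : ℝ := 52 / m * (3 * rb m - ρ) with hF
  have hF0 : 0 ≤ F := by
    have : 0 ≤ 3 * rb m - ρ := by linarith
    positivity
  have hF1 : F ≤ 53 / m := by
    rw [hF, div_mul_eq_mul_div]
    gcongr
    nlinarith
  set g : ℝ := 20 * m ^ 3 + 110 * m ^ 3 * (ρ - 2 * rb m) with hg
  have hg4 : 20 * m ^ 3 ≤ g := by
    rw [hg]
    have h1 : 0 ≤ ρ - 2 * rb m := by linarith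
    have : 0 ≤ 110 * m ^ 3 * (ρ - 2 * rb m) := by positivity
    linarith
  have hg0 : 0 < g := lt_of_lt_of_le (by positivity) hg4
  -- `l F² ≤ 703 m²`
  have hlF : 1 / yc m ^ 2 * F ^ 2 ≤ 703 * m ^ 2 := by
    calc 1 / yc m ^ 2 * F ^ 2 ≤ m ^ 4 / 4 * (53 / m) ^ 2 := by gcongr
      _ = 2809 / 4 * m ^ 2 := by
        field_simp
        ring
      _ ≤ 703 * m ^ 2 := by gcongr; norm_num
  have hW : Adm k (m ^ 3 + 8) (W3 k m) ρ h := by
    refine adm_prod h (D := 26 * m ^ 3) hl0 hρ0 (by positivity) (by norm_num) hF0 hg0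
      ?_ ?_ (by positivity) ?_ ?_
    · show ρ * (F ^ 2 * (1 / yc m ^ 2) / g) ≤ m ^ 3
      rw [mul_div_assoc', div_le_iff₀ hg0]
      calc ρ * (F ^ 2 * (1 / yc m ^ 2)) = ρ * (1 / yc m ^ 2 * F ^ 2) := by ring
        _ ≤ 4 * (703 * m ^ 2) := by
          gcongr
          linarith
        _ ≤ m ^ 3 * (20 * m ^ 3) := by
          have h1 : (160000 : ℝ) ≤ m ^ 4 := by
            calc (160000 : ℝ) = 20 ^ 4 := by norm_num
              _ ≤ m ^ 4 := by gcongr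
          have h2 : m ^ 3 * (20 * m ^ 3) = 20 * m ^ 4 * m ^ 2 := by ring
          rw [h2]
          have h3 : (0 : ℝ) < m ^ 2 := by positivity
          nlinarith
        _ ≤ m ^ 3 * g := by gcongr
    · show -(8 : ℝ) ≤ ((k : ℝ) - 1) * F + ρ * (-(52 / m))
      have h1 : 0 ≤ ((k : ℝ) - 1) * F := mul_nonneg hk1 hF0
      have h2 : ρ * (52 / m) ≤ 8 := by
        rw [mul_div_assoc', div_le_iff₀ h0]
        nlinarith
      linarith
    · show -(26 * m ^ 3) ≤ (k : ℝ) * (-(52 / m)) / ρ + 0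
      have h1 : (k : ℝ) * (-(52 / m)) / ρ = -(52 * m ^ 3 / ρ) := by
        rw [hkm]
        field_simp
      rw [h1]
      have h2 : 52 * m ^ 3 / ρ ≤ 26 * m ^ 3 := by
        rw [div_le_iff₀ hρ0]
        nlinarith
      linarith
    · show 3 * (1 / yc m ^ 2) * F + 26 * m ^ 3 + 2 * (k : ℝ) * (1 / yc m ^ 2) * F ^ 2 / (ρ * g) ≤
        110 * m ^ 3
      have h1 : 3 * (1 / yc m ^ 2) * F ≤ 40 * m ^ 3 := by
        calc 3 * (1 / yc m ^ 2) * F ≤ 3 * (m ^ 4 / 4) * (53 / m) := by gcongr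
          _ = 159 / 4 * m ^ 3 := by
            field_simp
            ring
          _ ≤ 40 * m ^ 3 := by gcongr; norm_num
      have h2 : 2 * (k : ℝ) * (1 / yc m ^ 2) * F ^ 2 / (ρ * g) ≤ 36 * m ^ 3 := by
        rw [div_le_iff₀ (by positivity), hkm]
        calc 2 * m ^ 4 * (1 / yc m ^ 2) * F ^ 2 = 2 * m ^ 4 * (1 / yc m ^ 2 * F ^ 2) := by ring
          _ ≤ 2 * m ^ 4 * (703 * m ^ 2) := by gcongr
          _ ≤ 36 * m ^ 3 * (2 * (20 * m ^ 3)) := by
            have : (0 : ℝ) < m ^ 6 := by positivity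
            nlinarith
          _ ≤ 36 * m ^ 3 * (ρ * g) := by
            gcongr
            linarith
      linarith
  have hV : Adm k (0 + 0) (V3 k m) ρ h := by
    refine adm_prod h (D := 0) (by positivity) hρ0 le_rfl le_rfl le_rfl ?_ ?_ ?_ le_rfl ?_ ?_
    · show 0 < 26 * m * (1 / yc m + 16 / m)
      positivity
    · simp
    · simp
    · simp
    · simp
  have hU : Adm k (0 + 0) (U3 k m) ρ h := by
    refine adm_prod h (D := 0) (by positivity) hρ0 le_rfl le_rfl le_rfl ?_ ?_ ?_ le_rfl ?_ ?_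
    · show 0 < 2 * m ^ 3 * (2 - eta k)
      have : 0 < 2 - eta k := by linarith
      positivity
    · simp
    · simp
    · simp
    · simp
  have hsum : (-(2 * m ^ 3)) + ((2 * m ^ 3) + ((0 + 0) + (0 + 0))) = (0 : ℝ) := by ring
  rw [← hsum]
  exact Adm.add hρ0 (adm_flat k _ ρ h) (Adm.add hρ0 (hW.mono (by linarith))
    (Adm.add hρ0 hV hU))

end N1

end Pool.Agent.Helper19.LB
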