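import Pool.Agent.Helper19.LB.Defs

/-!
# The explicit fields of the four zones (definitions of the frames, verbatim)

`m` is the fourth root of `k`.
-/

set_option autoImplicit false

open MeasureTheory Set Real Module
open scoped ContDiff RealInnerProductSpace

namespace Pool.Agent.Helper19.LB

noncomputable def rb (m : ℝ) : ℝ := 1 + 2 / m ^ 2
noncomputable def eta (k : ℕ) : ℝ := (1 / 2) ^ (k - 1)
noncomputable def vv (k : ℕ) (m ρ : ℝ) : ℝ := (rb m / ρ) ^ (k - 1)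
/-- the height of the fan at its end -/
noncomputable def yc (m : ℝ) : ℝ := 2 / m ^ 3 + 2 * rb m ^ 2 / m ^ 2

noncomputable def W1 (k : ℕ) (m : ℝ) : Fld :=
  Fld.prod k (m ^ 6) (fun ρ => (1 - eta k) * (m ^ 2 / 2) * (ρ - 1))
    (fun _ => (1 - eta k) * (m ^ 2 / 2)) (fun _ => 0) (fun ρ => m ^ 4 + 5 * m ^ 6 * (ρ - 1))
    (fun _ => 5 * m ^ 6)

noncomputable def W2 (k : ℕ) (m : ℝ) : Fld :=
  Fld.prod k (m ^ 6) (fun ρ => vv k m ρ - eta k) (fun ρ => -(k - 1) * vv k m ρ / ρ)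
    (fun ρ => k * (k - 1) * vv k m ρ / ρ ^ 2) (fun ρ => 2 * m ^ 3 * (2 - vv k m ρ))
    (fun ρ => 2 * m ^ 3 * ((k - 1) * vv k m ρ / ρ))

noncomputable def Fa (k : ℕ) (m : ℝ) : Fld := Fld.fan k (rb m) (52 / m) (2 / m ^ 3) (26 * m) (16 / m)

noncomputable def W3 (k : ℕ) (m : ℝ) : Fld :=
  Fld.prod k (1 / yc m ^ 2) (fun ρ => 52 / m * (3 * rb m - ρ)) (fun _ => -(52 / m)) (fun _ => 0)
    (fun ρ => 20 * m ^ 3 + 110 * m ^ 3 * (ρ - 2 * rb m)) (fun _ => 110 * m ^ 3)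

/-- what the fan leaves behind -/
noncomputable def V3 (k : ℕ) (m : ℝ) : Fld :=
  Fld.prod k (2 / yc m ^ 2) (fun _ => 0) (fun _ => 0) (fun _ => 0)
    (fun _ => 26 * m * (1 / yc m + 16 / m)) (fun _ => 0)

/-- what `W2` leaves behind -/
noncomputable def U3 (k : ℕ) (m : ℝ) : Fld :=
  Fld.prod k (m ^ 6) (fun _ => 0) (fun _ => 0) (fun _ => 0)
    (fun _ => 2 * m ^ 3 * (2 - eta k)) (fun _ => 0)

noncomputable def Zf (k : ℕ) (m : ℝ) : ℕ → Fld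
  | 0 => Fld.flat (2 * m ^ 3)
  | 1 => (Fld.flat (2 * m ^ 3)).add (W1 k m)
  | 2 => (Fld.flat (2 * m ^ 3)).add ((W2 k m).add (Fa k m))
  | 3 => (Fld.flat (2 * m ^ 3)).add ((W3 k m).add ((V3 k m).add (U3 k m)))
  | _ => Fld.flat (450 * m ^ 3)

/-- the radii, before scaling -/
noncomputable def bb (m : ℝ) : ℕ → ℝ
  | 0 => 0
  | 1 => 1
  | 2 => rb m
  | 3 => 2 * rb m
  | _ => 3 * rb m


end Pool.Agent.Helper19.LB
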